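import Pool.Agent.N964.GV.Stm

set_option autoImplicit false

/-! Project GV (helper964), part F (helper490): the bound implies the bound with `x^e` -/

namespace Pool.Agent.N490.GV.F

open Complex MeasureTheory Filter Asymptotics Topology
open Pool.Agent.N964.GV

theorem eventually_Q (E B C e : ℝ) (hE : E < 1) (he : 0 < e) :
    ∀ᶠ x : ℝ in atTop, C * Qv E B x ≤ e * Real.log x := by
  have hc : 0 < e / (|C| + 1) := by positivity
  have h1 := (isLittleO_log_rpow_rpow_atTop B (sub_pos.2 hE)).bound hc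
  have h2 : ∀ᶠ L : ℝ in atTop, C * (L ^ E * Real.log L ^ B) ≤ e * L := by
    filter_upwards [h1, eventually_ge_atTop (Real.exp 1)] with L hL hL1
    have hL0 : 0 < L := (Real.exp_pos 1).trans_le hL1
    have hlog : 1 ≤ Real.log L := by
      rw [Real.le_log_iff_exp_le hL0]
      exact hL1
    have h3 : 0 ≤ Real.log L ^ B := Real.rpow_nonneg (by linarith) _
    have h4 : 0 ≤ L ^ E := Real.rpow_nonneg hL0.le _
    rw [Real.norm_of_nonneg h3, Real.norm_of_nonneg (Real.rpow_nonneg hL0.le _)] at hL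
    have h5 : L ^ E * L ^ (1 - E) = L := by
      rw [← Real.rpow_add hL0, add_sub_cancel, Real.rpow_one]
    have h6 : |C| * (e / (|C| + 1)) ≤ e := by
      rw [mul_div_assoc', div_le_iff₀ (by positivity)]
      nlinarith [abs_nonneg C]
    calc C * (L ^ E * Real.log L ^ B) ≤ |C| * (L ^ E * Real.log L ^ B) :=
          mul_le_mul_of_nonneg_right (le_abs_self C) (mul_nonneg h4 h3)
      _ ≤ |C| * (L ^ E * (e / (|C| + 1) * L ^ (1 - E))) := by gcongr
      _ = |C| * (e / (|C| + 1)) * (L ^ E * L ^ (1 - E)) := by ring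
      _ = |C| * (e / (|C| + 1)) * L := by rw [h5]
      _ ≤ e * L := mul_le_mul_of_nonneg_right h6 hL0.le
  have h3 := Real.tendsto_log_atTop.eventually h2
  filter_upwards [h3] with x hx
  exact hx

theorem ev : S_ev := by
  rintro E B b _ hE1 _ ⟨C, h⟩ e he
  refine IsBigO.of_bound 1 ?_
  filter_upwards [eventually_Q E B C e hE1 he, eventually_ge_atTop 3] with x hx h3
  have hx0 : 0 < x := by linarith
  rw [one_mul, Real.norm_of_nonneg (Real.rpow_nonneg hx0.le _), Real.rpow_add hx0, ← Real.sqrt_eq_rpow]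
  refine (h x h3).trans ?_
  refine mul_le_mul_of_nonneg_left ?_ (Real.sqrt_nonneg x)
  rw [Real.rpow_def_of_pos hx0]
  exact Real.exp_le_exp.2 (by linarith)

end Pool.Agent.N490.GV.F
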